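import Pool.Agent.U73.WS.Fin

/-!
# Spaced sets of distinct zeros: test matrices on clusters of weighted points
-/

set_option autoImplicit false

open Complex Filter Topology Set MeasureTheory
open scoped BigOperators ComplexConjugate

namespace Pool.Agent.U73.WD

open H370 H344 H295SI H295Iso Pool.Agent.Y796.PA Pool.Agent.U73.WS

/-- the gain of a test matrix on the points `C` with the weights `w` -/
noncomputable def JT (Λ : ℝ) (w : ℝ → ℕ) (C : Finset ℝ) (D : ℝ → ℝ → ℝ) : ℝ :=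
  2 * ∑ x ∈ C, ∑ y ∈ C, D x y * (Real.sqrt (w x) * Real.sqrt (w y) * (phi Λ ((x : ℂ) - y)).re)
    - ∑ x ∈ C, ∑ y ∈ C, (D x y) ^ 2

/-- the quadratic form of `D` is at most `2` -/
def Form2 (C : Finset ℝ) (D : ℝ → ℝ → ℝ) : Prop :=
  ∀ v : ℝ → ℂ, ∑ x ∈ C, ∑ y ∈ C, D x y * (conj (v x) * v y).re ≤ 2 * ∑ x ∈ C, ‖v x‖ ^ 2

lemma glue2 (Λ : ℝ) (w : ℝ → ℕ) (A B : Finset ℝ) (hd : Disjoint A B) (YA YB : ℝ → ℝ → ℝ)
    (hA : Form2 A YA) (hB : Form2 B YB) :
    ∃ Y : ℝ → ℝ → ℝ, Form2 (A ∪ B) Y ∧ JT Λ w (A ∪ B) Y = JT Λ w A YA + JT Λ w B YB := by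
  classical
  refine ⟨fun x y => if x ∈ A ∧ y ∈ A then YA x y else if x ∈ B ∧ y ∈ B then YB x y else 0,
    fun v => ?_, ?_⟩
  · have := dbl_union A B hd (fun x y => YA x y * (conj (v x) * v y).re)
      (fun x y => YB x y * (conj (v x) * v y).re)
    simp only [ite_mul, zero_mul]
    rw [this, Finset.sum_union hd, mul_add]
    exact add_le_add (hA v) (hB v)
  · unfold JT
    have h1 := dbl_union A B hd
      (fun x y => YA x y * (Real.sqrt (w x) * Real.sqrt (w y) * (phi Λ ((x : ℂ) - y)).re))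
      (fun x y => YB x y * (Real.sqrt (w x) * Real.sqrt (w y) * (phi Λ ((x : ℂ) - y)).re))
    have h2 := dbl_union A B hd (fun x y => YA x y ^ 2) (fun x y => YB x y ^ 2)
    have e2 : ∀ x y : ℝ, (if x ∈ A ∧ y ∈ A then YA x y else if x ∈ B ∧ y ∈ B then YB x y
        else 0) ^ 2 = (if x ∈ A ∧ y ∈ A then YA x y ^ 2 else if x ∈ B ∧ y ∈ B then YB x y ^ 2
        else 0) := by
      intro x y
      by_cases c1 : x ∈ A ∧ y ∈ A
      · simp only [if_pos c1]
      · by_cases c2 : x ∈ B ∧ y ∈ B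
        · simp only [if_neg c1, if_pos c2]
        · simp only [if_neg c1, if_neg c2]; norm_num
    simp only [ite_mul, zero_mul, e2]
    rw [h1, h2]
    ring

/-- a cluster of points of weight one -/
lemma light {Λ κ : ℝ} (hκ : 0 ≤ κ) (w : ℝ → ℕ) (C : Finset ℝ) (hne : C.Nonempty)
    (hw : ∀ x ∈ C, w x = 1) (h : ∀ x ∈ C, ∀ y ∈ C, κ ≤ (phi Λ ((x : ℂ) - y)).re) :
    ∃ D : ℝ → ℝ → ℝ, Form2 C D ∧
      (∑ x ∈ C, (w x : ℝ)) + 2 * κ ^ 2 * ((∑ x ∈ C, (w x : ℝ)) - 1) ≤ JT Λ w C D := by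
  classical
  obtain ⟨Y, hY, hYT⟩ := cluster (Λ := Λ) (sq_nonneg κ) C hne (fun x hx y hy =>
    pow_le_pow_left₀ hκ (h x hx y hy) 2)
  have hsum : (∑ x ∈ C, (w x : ℝ)) = C.card := by
    rw [Finset.sum_congr rfl fun x hx => by rw [hw x hx]]
    simp
  refine ⟨fun x y => (if x = y then 1 else 0) + Y x y, fun v => ?_, ?_⟩
  · have e : ∑ x ∈ C, ∑ y ∈ C, ((if x = y then (1 : ℝ) else 0) + Y x y) * (conj (v x) * v y).re =
        ∑ x ∈ C, ‖v x‖ ^ 2 + ∑ x ∈ C, ∑ y ∈ C, Y x y * (conj (v x) * v y).re := by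
      rw [← Finset.sum_add_distrib]
      refine Finset.sum_congr rfl fun x hx => ?_
      simp only [add_mul, Finset.sum_add_distrib, ite_mul, one_mul, zero_mul]
      rw [Finset.sum_ite_eq C x, if_pos hx, Complex.conj_mul', ← Complex.ofReal_pow,
        Complex.ofReal_re]
    rw [e]
    linarith [hY v]
  · rw [hsum]
    have e : JT Λ w C (fun x y => (if x = y then 1 else 0) + Y x y) = C.card + YT Λ C Y := by
      unfold JT YT
      have e1 : ∑ x ∈ C, ∑ y ∈ C, ((if x = y then (1 : ℝ) else 0) + Y x y) *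
          (Real.sqrt (w x) * Real.sqrt (w y) * (phi Λ ((x : ℂ) - y)).re) =
          C.card + ∑ x ∈ C, ∑ y ∈ C, Y x y * (phi Λ ((x : ℂ) - y)).re := by
        rw [Finset.card_eq_sum_ones, Nat.cast_sum, ← Finset.sum_add_distrib]
        refine Finset.sum_congr rfl fun x hx => ?_
        have e2 : ∀ y ∈ C, ((if x = y then (1 : ℝ) else 0) + Y x y) *
            (Real.sqrt (w x) * Real.sqrt (w y) * (phi Λ ((x : ℂ) - y)).re) =
            (if x = y then (1 : ℝ) else 0) + Y x y * (phi Λ ((x : ℂ) - y)).re := by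
          intro y hy
          rw [hw x hx, hw y hy]
          by_cases hxy : x = y
          · subst hxy
            rw [if_pos rfl, sub_self, phi_zero]
            simp
          · rw [if_neg hxy]
            simp
        rw [Finset.sum_congr rfl e2, Finset.sum_add_distrib, Finset.sum_ite_eq C x, if_pos hx]
        push_cast
        ring
      have e3 : ∑ x ∈ C, ∑ y ∈ C, ((if x = y then (1 : ℝ) else 0) + Y x y) ^ 2 =
          C.card + 2 * (∑ x ∈ C, Y x x) + ∑ x ∈ C, ∑ y ∈ C, Y x y ^ 2 := by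
        rw [Finset.card_eq_sum_ones, Nat.cast_sum, Finset.mul_sum, ← Finset.sum_add_distrib,
          ← Finset.sum_add_distrib]
        refine Finset.sum_congr rfl fun x hx => ?_
        have e4 : ∀ y ∈ C, ((if x = y then (1 : ℝ) else 0) + Y x y) ^ 2 =
            (if x = y then (1 + 2 * Y x y) else 0) + Y x y ^ 2 := by
          intro y _
          by_cases hxy : x = y
          · rw [if_pos hxy, if_pos hxy]; ring
          · rw [if_neg hxy, if_neg hxy]; ring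
        rw [Finset.sum_congr rfl e4, Finset.sum_add_distrib, Finset.sum_ite_eq C x, if_pos hx]
        push_cast
        ring
      have e5 : ∑ x ∈ C, ∑ y ∈ C, Y x y * ((phi Λ ((x : ℂ) - y)).re - if x = y then 1 else 0) =
          ∑ x ∈ C, ∑ y ∈ C, Y x y * (phi Λ ((x : ℂ) - y)).re - ∑ x ∈ C, Y x x := by
        rw [← Finset.sum_sub_distrib]
        refine Finset.sum_congr rfl fun x hx => ?_
        simp only [mul_sub, Finset.sum_sub_distrib, mul_ite, mul_one, mul_zero]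
        rw [Finset.sum_ite_eq C x, if_pos hx]
      rw [e1, e3, e5]
      ring
    rw [e]
    linarith

/-- the numerical inequality for a cluster with a multiple point -/
lemma heavy_num {κ W s : ℝ} (h0 : 1 / 2 ≤ κ) (h1 : κ ≤ 1) (hW : W = 2 ∨ 3 ≤ W) (hs : W + 2 ≤ s) :
    W + 2 * κ ^ 2 * (W - 1) ≤ 4 / W * (κ * W ^ 2 + (1 - κ) * s) - 4 := by
  have hW0 : 0 < W := by rcases hW with h | h <;> linarith
  have h2 : 4 / W * (κ * W ^ 2 + (1 - κ) * (W + 2)) ≤ 4 / W * (κ * W ^ 2 + (1 - κ) * s) := by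
    apply mul_le_mul_of_nonneg_left _ (by positivity)
    have := mul_le_mul_of_nonneg_left hs (show 0 ≤ 1 - κ by linarith)
    linarith
  refine le_trans ?_ (sub_le_sub_right h2 4)
  have e : 4 / W * (κ * W ^ 2 + (1 - κ) * (W + 2)) - 4 - (W + 2 * κ ^ 2 * (W - 1)) =
      (W * ((1 - 2 * (1 - κ) ^ 2) * (W - 1) - 1) + 8 * (1 - κ)) / W := by
    field_simp
    ring
  have h3 : 0 ≤ (W * ((1 - 2 * (1 - κ) ^ 2) * (W - 1) - 1) + 8 * (1 - κ)) / W := by
    apply div_nonneg _ hW0.le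
    rcases hW with h | h
    · subst h
      nlinarith
    · have h4 : (1 - κ) ^ 2 ≤ 1 / 4 := by nlinarith
      have h5 : 1 / 2 ≤ 1 - 2 * (1 - κ) ^ 2 := by linarith
      have h6 : 1 / 2 * 2 ≤ (1 - 2 * (1 - κ) ^ 2) * (W - 1) :=
        mul_le_mul h5 (by linarith) (by norm_num) (by linarith)
      have h7 : 0 ≤ W * ((1 - 2 * (1 - κ) ^ 2) * (W - 1) - 1) :=
        mul_nonneg hW0.le (by linarith)
      linarith
  linarith

/-- a cluster with a multiple point -/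
lemma heavy {Λ κ : ℝ} (h0 : 1 / 2 ≤ κ) (h1 : κ ≤ 1) (w : ℝ → ℕ) (C : Finset ℝ)
    (hw : ∀ x ∈ C, 1 ≤ w x) (hex : ∃ x ∈ C, 2 ≤ w x)
    (h : ∀ x ∈ C, ∀ y ∈ C, κ ≤ (phi Λ ((x : ℂ) - y)).re) :
    ∃ D : ℝ → ℝ → ℝ, Form2 C D ∧
      (∑ x ∈ C, (w x : ℝ)) + 2 * κ ^ 2 * ((∑ x ∈ C, (w x : ℝ)) - 1) ≤ JT Λ w C D := by
  classical
  obtain ⟨x0, hx0, hx2⟩ := hex
  set n : ℕ := ∑ x ∈ C, w x with hn
  have hn2 : 2 ≤ n := hx2.trans (Finset.single_le_sum (f := fun x => w x)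
    (fun _ _ => Nat.zero_le _) hx0)
  set W : ℝ := ∑ x ∈ C, (w x : ℝ) with hW
  have hWn : W = n := by rw [hW, hn]; push_cast; rfl
  have hW2 : (2 : ℝ) ≤ W := by rw [hWn]; exact_mod_cast hn2
  have hW0 : 0 < W := by linarith
  have hWc : W = 2 ∨ 3 ≤ W := by
    rcases Nat.lt_or_ge 2 n with h2 | h2
    · right; rw [hWn]; exact_mod_cast h2
    · left
      have : n = 2 := by omega
      rw [hWn, this]; norm_num
  have hsq : ∀ x : ℝ, Real.sqrt (w x) * Real.sqrt (w x) = (w x : ℝ) := fun x =>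
    Real.mul_self_sqrt (Nat.cast_nonneg _)
  set s : ℝ := ∑ x ∈ C, (w x : ℝ) ^ 2 with hs
  have hsW : W + 2 ≤ s := by
    have h2 : (2 : ℝ) ≤ ∑ x ∈ C, ((w x : ℝ) ^ 2 - w x) := by
      have h3 : ((w x0 : ℝ) ^ 2 - w x0) ≤ ∑ x ∈ C, ((w x : ℝ) ^ 2 - w x) :=
        Finset.single_le_sum (f := fun x => ((w x : ℝ) ^ 2 - w x)) (fun x hx => by
          have : (1 : ℝ) ≤ w x := by exact_mod_cast hw x hx
          nlinarith) hx0
      have h4 : (2 : ℝ) ≤ w x0 := by exact_mod_cast hx2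
      nlinarith
    rw [Finset.sum_sub_distrib] at h2
    linarith
  refine ⟨fun x y => 2 / W * (Real.sqrt (w x) * Real.sqrt (w y)), fun v => ?_, ?_⟩
  · have e : ∑ x ∈ C, ∑ y ∈ C, 2 / W * (Real.sqrt (w x) * Real.sqrt (w y)) *
        (conj (v x) * v y).re = 2 / W * ‖∑ x ∈ C, ((Real.sqrt (w x) : ℝ) : ℂ) * v x‖ ^ 2 := by
      have e1 : (‖∑ x ∈ C, ((Real.sqrt (w x) : ℝ) : ℂ) * v x‖ ^ 2 : ℝ) =
          ((conj (∑ x ∈ C, ((Real.sqrt (w x) : ℝ) : ℂ) * v x)) *
            ∑ x ∈ C, ((Real.sqrt (w x) : ℝ) : ℂ) * v x).re := by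
        rw [Complex.conj_mul', ← Complex.ofReal_pow, Complex.ofReal_re]
      rw [e1, map_sum, Finset.sum_mul_sum, Complex.re_sum, Finset.mul_sum]
      refine Finset.sum_congr rfl fun x _ => ?_
      rw [Complex.re_sum, Finset.mul_sum]
      refine Finset.sum_congr rfl fun y _ => ?_
      rw [map_mul, Complex.conj_ofReal, show ((Real.sqrt (w x) : ℝ) : ℂ) * conj (v x) *
        (((Real.sqrt (w y) : ℝ) : ℂ) * v y) = ((Real.sqrt (w x) * Real.sqrt (w y) : ℝ) : ℂ) *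
          (conj (v x) * v y) by push_cast; ring, Complex.re_ofReal_mul]
      ring
    rw [e]
    have h2 : ‖∑ x ∈ C, ((Real.sqrt (w x) : ℝ) : ℂ) * v x‖ ≤ ∑ x ∈ C, Real.sqrt (w x) * ‖v x‖ := by
      refine (norm_sum_le _ _).trans (le_of_eq (Finset.sum_congr rfl fun x _ => ?_))
      rw [norm_mul, Complex.norm_real, Real.norm_of_nonneg (Real.sqrt_nonneg _)]
    have h3 := Finset.sum_mul_sq_le_sq_mul_sq C (fun x => Real.sqrt (w x)) (fun x => ‖v x‖)
    have h4 : ∑ x ∈ C, Real.sqrt (w x) ^ 2 = W := by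
      rw [hW]
      refine Finset.sum_congr rfl fun x _ => ?_
      rw [sq, hsq]
    rw [h4] at h3
    have h5 : ‖∑ x ∈ C, ((Real.sqrt (w x) : ℝ) : ℂ) * v x‖ ^ 2 ≤ W * ∑ x ∈ C, ‖v x‖ ^ 2 :=
      (pow_le_pow_left₀ (norm_nonneg _) h2 2).trans h3
    calc 2 / W * ‖∑ x ∈ C, ((Real.sqrt (w x) : ℝ) : ℂ) * v x‖ ^ 2 ≤
          2 / W * (W * ∑ x ∈ C, ‖v x‖ ^ 2) := mul_le_mul_of_nonneg_left h5 (by positivity)
      _ = 2 * ∑ x ∈ C, ‖v x‖ ^ 2 := by field_simp
  · refine (heavy_num h0 h1 hWc hsW).trans ?_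
    unfold JT
    have e1 : ∑ x ∈ C, ∑ y ∈ C, (2 / W * (Real.sqrt (w x) * Real.sqrt (w y))) ^ 2 = 4 := by
      have : ∀ x ∈ C, ∀ y ∈ C, (2 / W * (Real.sqrt (w x) * Real.sqrt (w y))) ^ 2 =
          4 / W ^ 2 * ((w x : ℝ) * w y) := by
        intro x _ y _
        rw [mul_pow, mul_pow, Real.sq_sqrt (Nat.cast_nonneg _), Real.sq_sqrt (Nat.cast_nonneg _)]
        ring
      rw [Finset.sum_congr rfl fun x hx => Finset.sum_congr rfl fun y hy => this x hx y hy]
      simp only [← Finset.mul_sum]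
      rw [← Finset.sum_mul, ← hW]
      field_simp
    have e2 : ∑ x ∈ C, ∑ y ∈ C, 2 / W * (Real.sqrt (w x) * Real.sqrt (w y)) *
        (Real.sqrt (w x) * Real.sqrt (w y) * (phi Λ ((x : ℂ) - y)).re) =
        2 / W * ∑ x ∈ C, ∑ y ∈ C, (w x : ℝ) * w y * (phi Λ ((x : ℂ) - y)).re := by
      rw [Finset.mul_sum]
      refine Finset.sum_congr rfl fun x _ => ?_
      rw [Finset.mul_sum]
      refine Finset.sum_congr rfl fun y _ => ?_
      calc 2 / W * (Real.sqrt (w x) * Real.sqrt (w y)) *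
          (Real.sqrt (w x) * Real.sqrt (w y) * (phi Λ ((x : ℂ) - y)).re)
          = 2 / W * ((Real.sqrt (w x) * Real.sqrt (w x)) * (Real.sqrt (w y) * Real.sqrt (w y)) *
            (phi Λ ((x : ℂ) - y)).re) := by ring
        _ = _ := by rw [hsq, hsq]
    have e3 : κ * W ^ 2 + (1 - κ) * s ≤
        ∑ x ∈ C, ∑ y ∈ C, (w x : ℝ) * w y * (phi Λ ((x : ℂ) - y)).re := by
      have e4 : κ * W ^ 2 + (1 - κ) * s = ∑ x ∈ C, ∑ y ∈ C,
          ((w x : ℝ) * w y * κ + if x = y then (1 - κ) * (w x : ℝ) ^ 2 else 0) := by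
        have e5 : ∀ x ∈ C, ∑ y ∈ C,
            ((w x : ℝ) * w y * κ + if x = y then (1 - κ) * (w x : ℝ) ^ 2 else 0) =
            κ * W * (w x : ℝ) + (1 - κ) * (w x : ℝ) ^ 2 := by
          intro x hx
          rw [Finset.sum_add_distrib, Finset.sum_ite_eq C x, if_pos hx, ← Finset.sum_mul,
            ← Finset.mul_sum, ← hW]
          ring
        rw [Finset.sum_congr rfl e5, Finset.sum_add_distrib, ← Finset.mul_sum, ← Finset.mul_sum,
          ← hW, ← hs]
        ring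
      rw [e4]
      refine Finset.sum_le_sum fun x hx => Finset.sum_le_sum fun y hy => ?_
      have hww : (0 : ℝ) ≤ (w x : ℝ) * w y := by positivity
      by_cases hxy : x = y
      · subst hxy
        rw [if_pos rfl, sub_self, phi_zero, Complex.one_re]
        nlinarith
      · rw [if_neg hxy, add_zero]
        exact mul_le_mul_of_nonneg_left (h x hx y hy) hww
    rw [e1, e2]
    have e6 := mul_le_mul_of_nonneg_left e3 (show 0 ≤ 4 / W by positivity)
    have e7 : 2 * (2 / W * ∑ x ∈ C, ∑ y ∈ C, (w x : ℝ) * w y * (phi Λ ((x : ℂ) - y)).re) =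
        4 / W * ∑ x ∈ C, ∑ y ∈ C, (w x : ℝ) * w y * (phi Λ ((x : ℂ) - y)).re := by ring
    rw [e7]
    linarith

/-- the greedy choice -/
lemma greedy2 {Λ κ ρ : ℝ} (h0 : 1 / 2 ≤ κ) (h1 : κ ≤ 1) (hρ : 0 ≤ ρ) (w : ℝ → ℕ)
    (hκ : ∀ x y : ℝ, |x - y| ≤ ρ → κ ≤ (phi Λ ((x : ℂ) - y)).re) (S : Finset ℝ) :
    (∀ x ∈ S, 1 ≤ w x) → ∃ A ⊆ S, (∀ a ∈ A, ∀ b ∈ A, a ≠ b → ρ < |a - b|) ∧
      ∃ D : ℝ → ℝ → ℝ, Form2 S D ∧
        (∑ x ∈ S, (w x : ℝ)) + 2 * κ ^ 2 * ((∑ x ∈ S, (w x : ℝ)) - A.card) ≤ JT Λ w S D := by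
  classical
  induction S using Finset.strongInduction with
  | H S ih =>
    intro hw
    rcases S.eq_empty_or_nonempty with rfl | hne
    · exact ⟨∅, Finset.Subset.refl _, by simp, fun _ _ => 0, fun v => by simp, by simp [JT]⟩
    · set s0 := S.min' hne with hs0
      have hs0S : s0 ∈ S := Finset.min'_mem S hne
      have hmin : ∀ x ∈ S, s0 ≤ x := fun x hx => Finset.min'_le S x hx
      set C := S.filter (fun x => x ≤ s0 + ρ) with hC
      set S' := S.filter (fun x => ¬ x ≤ s0 + ρ) with hS'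
      have hmC : ∀ x, x ∈ C ↔ x ∈ S ∧ x ≤ s0 + ρ := fun x => Finset.mem_filter
      have hmS' : ∀ x, x ∈ S' ↔ x ∈ S ∧ ¬ x ≤ s0 + ρ := fun x => Finset.mem_filter
      have hs0C : s0 ∈ C := (hmC s0).mpr ⟨hs0S, by linarith⟩
      have hss : S' ⊂ S := by
        rw [Finset.ssubset_iff_of_subset (Finset.filter_subset _ _)]
        exact ⟨s0, hs0S, fun h => ((hmS' s0).mp h).2 (by linarith)⟩
      have hun : C ∪ S' = S := Finset.filter_union_filter_not_eq _ _
      have hdis : Disjoint C S' := Finset.disjoint_filter_filter_not _ _ _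
      obtain ⟨A', hA', hsep, Y', hY', hY'2⟩ := ih S' hss (fun x hx => hw x (hss.1 hx))
      have hclose : ∀ x ∈ C, ∀ y ∈ C, κ ≤ (phi Λ ((x : ℂ) - y)).re := by
        intro x hx y hy
        have hx' := (hmC x).mp hx
        have hy' := (hmC y).mp hy
        apply hκ
        rw [abs_le]
        constructor <;> linarith [hmin x hx'.1, hmin y hy'.1, hx'.2, hy'.2]
      have hwC : ∀ x ∈ C, 1 ≤ w x := fun x hx => hw x ((hmC x).mp hx).1
      obtain ⟨Y1, hY1, hY12⟩ : ∃ D : ℝ → ℝ → ℝ, Form2 C D ∧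
          (∑ x ∈ C, (w x : ℝ)) + 2 * κ ^ 2 * ((∑ x ∈ C, (w x : ℝ)) - 1) ≤ JT Λ w C D := by
        by_cases hex : ∃ x ∈ C, 2 ≤ w x
        · exact heavy h0 h1 w C hwC hex hclose
        · push Not at hex
          exact light (by linarith) w C ⟨s0, hs0C⟩ (fun x hx => by
            have a1 := hwC x hx
            have a2 := hex x hx
            omega) hclose
      obtain ⟨Y, g1, g2⟩ := glue2 Λ w C S' hdis Y1 Y' hY1 hY'
      rw [hun] at g1 g2
      have hns : s0 ∉ A' := fun h => ((hmS' s0).mp (hA' h)).2 (by linarith)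
      refine ⟨insert s0 A', ?_, ?_, Y, g1, ?_⟩
      · intro x hx
        rcases Finset.mem_insert.mp hx with rfl | hx
        · exact hs0S
        · exact hss.1 (hA' hx)
      · have hfar : ∀ a ∈ A', ρ < |a - s0| := by
          intro a ha
          have h5 := not_le.mp ((hmS' a).mp (hA' ha)).2
          exact lt_of_lt_of_le (by linarith) (le_abs_self _)
        intro a ha b hb hab
        rcases Finset.mem_insert.mp ha with rfl | ha
        · rcases Finset.mem_insert.mp hb with rfl | hb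
          · exact absurd rfl hab
          · rw [abs_sub_comm]
            exact hfar b hb
        · rcases Finset.mem_insert.mp hb with rfl | hb
          · exact hfar a ha
          · exact hsep a ha b hb hab
      · rw [g2, Finset.card_insert_of_notMem hns]
        have hc : ∑ x ∈ S, (w x : ℝ) = ∑ x ∈ C, (w x : ℝ) + ∑ x ∈ S', (w x : ℝ) := by
          rw [← Finset.sum_union hdis, hun]
        rw [hc]
        push_cast
        have e : ∑ x ∈ C, (w x : ℝ) + ∑ x ∈ S', (w x : ℝ) +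
            2 * κ ^ 2 * (∑ x ∈ C, (w x : ℝ) + ∑ x ∈ S', (w x : ℝ) - (A'.card + 1)) =
            (∑ x ∈ C, (w x : ℝ) + 2 * κ ^ 2 * (∑ x ∈ C, (w x : ℝ) - 1)) +
            (∑ x ∈ S', (w x : ℝ) + 2 * κ ^ 2 * (∑ x ∈ S', (w x : ℝ) - A'.card)) := by ring
        rw [e]
        exact add_le_add hY12 hY'2

end Pool.Agent.U73.WD
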