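import Pool.Agent.U73.WD.Clu

/-!
# Spaced sets of distinct zeros: the trace inequality
-/

set_option autoImplicit false

open Complex Filter Topology Set MeasureTheory
open scoped BigOperators ComplexConjugate

namespace Pool.Agent.U73.WD

open H370 H344 H295SI H295Iso Pool.Agent.Y796.PA Pool.Agent.U73.WS

/-- ordinates of the zeros on the critical line -/
noncomputable def OF (F : ℂ → ℂ) (U1 U2 : ℝ) : Finset ℝ := by
  classical
  exact ((Zf F U1 U2).filter (fun s => s.re = 1 / 2)).image Complex.im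

/-- zeros to the left of the critical line -/
noncomputable def LF (F : ℂ → ℂ) (U1 U2 : ℝ) : Finset ℂ := by
  classical
  exact (Zf F U1 U2).filter (fun s => s.re < 1 / 2)

/-- the multiplicity of the zero `1/2 + i x` -/
noncomputable def wt (F : ℂ → ℂ) (x : ℝ) : ℕ := mult F (1 / 2 + I * x)

lemma mem_OF {F : ℂ → ℂ} {U1 U2 x : ℝ} : x ∈ OF F U1 U2 ↔ (1 / 2 + I * x : ℂ) ∈ Zf F U1 U2 := by
  classical
  unfold OF
  rw [Finset.mem_image]
  constructor
  · rintro ⟨s, hs, rfl⟩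
    rw [Finset.mem_filter] at hs
    have : s = 1 / 2 + I * s.im := by
      apply Complex.ext
      · simp [hs.2]
      · simp
    rw [← this]
    exact hs.1
  · intro h
    exact ⟨1 / 2 + I * x, Finset.mem_filter.mpr ⟨h, by simp⟩, by simp⟩

lemma mem_LF {F : ℂ → ℂ} {U1 U2 : ℝ} {s : ℂ} : s ∈ LF F U1 U2 ↔ s ∈ Zf F U1 U2 ∧ s.re < 1 / 2 := by
  classical
  unfold LF
  rw [Finset.mem_filter]

lemma psplit (P : Finset ℂ) (hP : ∀ z ∈ P, 0 ≤ z.im) (f : ℂ → ℝ) :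
    ∑ z ∈ P, f z = ∑ z ∈ P.filter (fun z => z.im = 0), f z +
      ∑ z ∈ P.filter (fun z => 0 < z.im), f z := by
  classical
  rw [← Finset.sum_filter_add_sum_filter_not P (fun z => z.im = 0)]
  congr 1
  refine Finset.sum_congr ?_ fun _ _ => rfl
  ext z
  rw [Finset.mem_filter, Finset.mem_filter]
  constructor
  · rintro ⟨h1, h2⟩
    exact ⟨h1, lt_of_le_of_ne (hP z h1) (fun h => h2 h.symm)⟩
  · rintro ⟨h1, h2⟩
    exact ⟨h1, h2.ne'⟩

/-- splitting a double sum with a test matrix -/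
lemma dsum (P : Finset ℂ) (hP : ∀ z ∈ P, 0 ≤ z.im) (D0 : ℝ → ℝ → ℝ) (c : ℝ) (g : ℂ → ℂ → ℝ) :
    ∑ z ∈ P, ∑ w ∈ P, (if z.im = 0 ∧ w.im = 0 then D0 z.re w.re else if z = w then c else 0) *
      g z w = ∑ z ∈ P.filter (fun z => z.im = 0), ∑ w ∈ P.filter (fun z => z.im = 0),
        D0 z.re w.re * g z w + ∑ z ∈ P.filter (fun z => 0 < z.im), c * g z z := by
  classical
  rw [psplit P hP]
  congr 1
  · refine Finset.sum_congr rfl fun z hz => ?_
    rw [Finset.mem_filter] at hz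
    rw [psplit P hP]
    have h0 : ∑ w ∈ P.filter (fun z => 0 < z.im), (if z.im = 0 ∧ w.im = 0 then D0 z.re w.re else
        if z = w then c else 0) * g z w = 0 := by
      refine Finset.sum_eq_zero fun w hw => ?_
      rw [Finset.mem_filter] at hw
      rw [if_neg (fun h => hw.2.ne' h.2), if_neg (fun h => by
        rw [h] at hz
        exact hw.2.ne' hz.2), zero_mul]
    rw [h0, add_zero]
    refine Finset.sum_congr rfl fun w hw => ?_
    rw [Finset.mem_filter] at hw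
    rw [if_pos ⟨hz.2, hw.2⟩]
  · refine Finset.sum_congr rfl fun z hz => ?_
    rw [Finset.mem_filter] at hz
    rw [Finset.sum_eq_single z]
    · rw [if_neg (fun h => hz.2.ne' h.1), if_pos rfl]
    · intro w _ hwz
      rw [if_neg (fun h => hz.2.ne' h.1), if_neg (fun h => hwz h.symm), zero_mul]
    · intro h
      exact absurd hz.1 h

/-- **the trace inequality for all zeros** -/
theorem core_dist {F : ℂ → ℂ} (hF : GoodL F) {U1 U2 : ℝ} (hU : 1 ≤ U1) (Λ : ℝ)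
    (D0 : ℝ → ℝ → ℝ) (hD0 : Form2 (OF F U1 U2) D0) :
    JT Λ (wt F) (OF F U1 U2) D0 + ∑ s ∈ LF F U1 U2, (8 * (mult F s : ℝ) - 4) ≤ QQ F Λ U1 U2 ∧
    ∑ x ∈ OF F U1 U2, (wt F x : ℝ) + 2 * ∑ s ∈ LF F U1 U2, (mult F s : ℝ) =
      (NN F U1 U2 : ℝ) := by
  classical
  obtain ⟨E, iE1, iE2, k, hk⟩ := gram_exists Λ
  set W := Zf F U1 U2 with hW
  set Z : Finset ℂ := W.image zz with hZ
  set m : ℂ → ℕ := fun z => mult F (1 / 2 + I * z) with hm
  have hback : ∀ s : ℂ, (1 / 2 + I * zz s) = s := by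
    intro s
    have := zz_spec s
    linear_combination -this
  have hzzb : ∀ z : ℂ, zz (1 / 2 + I * z) = z := by
    intro z
    unfold zz
    have := I_mul_I
    linear_combination (-z) * this
  have hmz : ∀ s : ℂ, m (zz s) = mult F s := by
    intro s; simp only [hm]; rw [hback]
  have hWm : ∀ s ∈ W, s ∈ zset F U1 U2 := fun s hs => (mem_Zf hF hU).mp hs
  have hZW : ∀ z : ℂ, z ∈ Z ↔ (1 / 2 + I * z) ∈ W := by
    intro z
    rw [hZ, Finset.mem_image]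
    constructor
    · rintro ⟨s, hs, rfl⟩; rw [hback]; exact hs
    · intro hz; exact ⟨_, hz, hzzb z⟩
  have hsumZ : ∀ {M : Type} [AddCommMonoid M] (f : ℂ → M),
      ∑ z ∈ Z, f z = ∑ s ∈ W, f (zz s) := by
    intro M _ f
    rw [hZ, Finset.sum_image (fun s _ s' _ h => zz_inj h)]
  have hN : ∑ z ∈ Z, (m z : ℝ) = NN F U1 U2 := by
    rw [NN_eq hF hU, hsumZ]
    simp only [hmz]
    push_cast; rfl
  have hZc : ∀ z ∈ Z, conj z ∈ Z := by
    intro z hz
    rw [hZ, Finset.mem_image] at hz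
    obtain ⟨s, hs, rfl⟩ := hz
    rw [← zz_refl]
    exact Finset.mem_image_of_mem _ ((mem_Zf hF hU).mpr (zset_refl hF hU (hWm s hs)))
  have hmc : ∀ z ∈ Z, m (conj z) = m z := by
    intro z hz
    rw [hZ, Finset.mem_image] at hz
    obtain ⟨s, hs, rfl⟩ := hz
    have := hWm s hs
    rw [← zz_refl, hmz, hmz, mult_refl hF this.1 this.2.1 (by linarith [this.2.2.1])]
  set P := Z.filter (fun z => 0 ≤ z.im) with hP
  have hPim : ∀ z ∈ P, 0 ≤ z.im := fun z hz => (Finset.mem_filter.mp hz).2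
  have hPZ : ∀ z ∈ P, z ∈ Z := fun z hz => (Finset.mem_filter.mp hz).1
  -- the two parts of `P`
  have hP0 : P.filter (fun z => z.im = 0) = (OF F U1 U2).image (fun x : ℝ => (x : ℂ)) := by
    ext z
    rw [Finset.mem_filter, Finset.mem_image]
    constructor
    · rintro ⟨h1, h2⟩
      have h3 : ((z.re : ℝ) : ℂ) = z := by
        apply Complex.ext
        · simp
        · simp [h2]
      exact ⟨z.re, mem_OF.mpr (by rw [h3]; exact (hZW z).mp (hPZ z h1)), h3⟩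
    · rintro ⟨x, hx, rfl⟩
      exact ⟨Finset.mem_filter.mpr ⟨(hZW _).mpr (mem_OF.mp hx), by simp⟩, by simp⟩
  have hP1 : P.filter (fun z => 0 < z.im) = (LF F U1 U2).image zz := by
    ext z
    rw [Finset.mem_filter, Finset.mem_image]
    constructor
    · rintro ⟨h1, h2⟩
      refine ⟨1 / 2 + I * z, mem_LF.mpr ⟨(hZW z).mp (hPZ z h1), ?_⟩, hzzb z⟩
      simp
      linarith
    · rintro ⟨s, hs, rfl⟩
      obtain ⟨h1, h2⟩ := mem_LF.mp hs
      have h3 : 0 < (zz s).im := by rw [zz_im]; linarith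
      exact ⟨Finset.mem_filter.mpr ⟨Finset.mem_image_of_mem _ h1, h3.le⟩, h3⟩
  have hs0 : ∀ f : ℂ → ℝ, ∑ z ∈ P.filter (fun z => z.im = 0), f z =
      ∑ x ∈ OF F U1 U2, f (x : ℂ) := by
    intro f
    rw [hP0, Finset.sum_image (fun x _ y _ h => Complex.ofReal_injective h)]
  have hs1 : ∀ f : ℂ → ℝ, ∑ z ∈ P.filter (fun z => 0 < z.im), f z =
      ∑ s ∈ LF F U1 U2, f (zz s) := by
    intro f
    rw [hP1, Finset.sum_image (fun s _ s' _ h => zz_inj h)]
  have hsplit : ∀ f : ℂ → ℝ, ∑ z ∈ P, f z = ∑ x ∈ OF F U1 U2, f (x : ℂ) +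
      ∑ s ∈ LF F U1 U2, f (zz s) := by
    intro f
    rw [← hs0, ← hs1]
    exact psplit P hPim f
  set D : ℂ → ℂ → ℝ := fun z w => if z.im = 0 ∧ w.im = 0 then D0 z.re w.re else
    if z = w then 2 else 0 with hD
  obtain ⟨-, -, -, hNs, hmain⟩ := trace_gen (phi Λ) k hk (phi_even Λ) (phi_zero Λ) Z hZc m hmc D (by
    intro v
    have h1 := dsum P hPim D0 2 (fun z w => ((starRingEnd ℂ (v z)) * v w).re)
    rw [← hP]
    refine (le_of_eq h1).trans ?_
    rw [hs0, hs1]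
    simp only [hs0, Complex.ofReal_re]
    have h2 := hD0 (fun x => v x)
    have h3 : ∀ z : ℂ, ((starRingEnd ℂ (v z)) * v z).re = ‖v z‖ ^ 2 := by
      intro z
      rw [Complex.conj_mul', ← Complex.ofReal_pow, Complex.ofReal_re]
    simp only [h3]
    rw [hsplit (fun z => ‖v z‖ ^ 2), mul_add, ← Finset.mul_sum]
    linarith)
  rw [← hP] at hNs hmain
  have hcc0 : ∀ x : ℝ, H344.cc m (x : ℂ) = (wt F x : ℝ) / 4 := by
    intro x
    unfold H344.cc
    rw [if_pos (by simp)]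
    rfl
  have hcc1 : ∀ s ∈ LF F U1 U2, H344.cc m (zz s) = (mult F s : ℝ) / 2 := by
    intro s hs
    have h2 := (mem_LF.mp hs).2
    have h3 : 0 < (zz s).im := by rw [zz_im]; linarith
    unfold H344.cc
    rw [if_neg h3.ne', hmz]
  constructor
  · -- the main inequality
    have hQ : (∑ z ∈ Z, ∑ w ∈ Z, (m z : ℂ) * (m w : ℂ) * (phi Λ (z - w)) ^ 2).re
        = QQ F Λ U1 U2 := by
      rw [QQ_eq hF hU, hsumZ]
      simp only [hsumZ, hmz, ← hW]
    rw [hQ] at hmain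
    refine le_trans ?_ hmain
    have h1 := dsum P hPim D0 2 (fun z w => rr (phi Λ) m z w)
    have h2 := dsum P hPim (fun x y => D0 x y ^ 2) (2 ^ 2) (fun _ _ => 1)
    have h3 : ∑ z ∈ P, ∑ w ∈ P, (D z w) ^ 2 = ∑ z ∈ P, ∑ w ∈ P,
        (if z.im = 0 ∧ w.im = 0 then (fun x y => D0 x y ^ 2) z.re w.re else
          if z = w then 2 ^ 2 else 0) * (fun _ _ => (1 : ℝ)) z w := by
      refine Finset.sum_congr rfl fun z _ => Finset.sum_congr rfl fun w _ => ?_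
      simp only [hD, mul_one]
      by_cases c1 : z.im = 0 ∧ w.im = 0
      · rw [if_pos c1, if_pos c1]
      · by_cases c2 : z = w
        · rw [if_neg c1, if_neg c1, if_pos c2, if_pos c2]
        · rw [if_neg c1, if_neg c1, if_neg c2, if_neg c2]; norm_num
    have h4 : ∑ z ∈ P, ∑ w ∈ P, D z w * rr (phi Λ) m z w = _ := h1
    rw [h3, h2, h4, hs0, hs1, hs0, hs1, hsplit (fun z => rr (phi Λ) m z z - 4 * H344.cc m z)]
    simp only [hs0, Complex.ofReal_re, mul_one]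
    have h5 : ∀ x y : ℝ, rr (phi Λ) m (x : ℂ) (y : ℂ) = Real.sqrt (wt F x) * Real.sqrt (wt F y) *
        (phi Λ ((x : ℂ) - y)).re := by
      intro x y
      unfold rr
      rw [hcc0, hcc0, Complex.conj_ofReal, Complex.conj_ofReal]
      have e1 : ∀ n : ℝ, 0 ≤ n → Real.sqrt (n / 4) = Real.sqrt n / 2 := by
        intro n hn
        rw [Real.sqrt_div hn, show (4 : ℝ) = 2 ^ 2 by norm_num, Real.sqrt_sq (by norm_num)]
      rw [e1 _ (Nat.cast_nonneg _), e1 _ (Nat.cast_nonneg _), phi_sub_symm Λ y x]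
      ring
    have h6 : ∑ x ∈ OF F U1 U2, (rr (phi Λ) m (x : ℂ) (x : ℂ) - 4 * H344.cc m (x : ℂ)) = 0 := by
      refine Finset.sum_eq_zero fun x _ => ?_
      rw [h5, hcc0, sub_self, phi_zero, Real.mul_self_sqrt (Nat.cast_nonneg _), Complex.one_re]
      ring
    rw [h6]
    simp only [h5]
    have h7 : ∑ s ∈ LF F U1 U2, (8 * (mult F s : ℝ) - 4) =
        2 * ∑ s ∈ LF F U1 U2, 2 * rr (phi Λ) m (zz s) (zz s) - ∑ s ∈ LF F U1 U2, (2 : ℝ) ^ 2 -
        4 * ∑ s ∈ LF F U1 U2, (rr (phi Λ) m (zz s) (zz s) - 4 * H344.cc m (zz s)) := by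
      rw [Finset.mul_sum, Finset.mul_sum, ← Finset.sum_sub_distrib, ← Finset.sum_sub_distrib]
      refine Finset.sum_congr rfl fun s hs => ?_
      rw [hcc1 s hs]
      ring
    rw [h7]
    unfold JT
    linarith
  · rw [hN, hsplit] at hNs
    rw [← hNs, Finset.mul_sum]
    congr 1
    · exact Finset.sum_congr rfl fun x _ => by rw [hcc0]; ring
    · exact Finset.sum_congr rfl fun s hs => by rw [hcc1 s hs]; ring

/-- **the inequality for spaced sets of distinct zeros** -/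
theorem wd_core {F : ℂ → ℂ} (hF : GoodL F) {U1 U2 Λ κ ρ : ℝ} (hU : 1 ≤ U1) (h0 : 1 / 2 ≤ κ)
    (h1 : κ ≤ 1) (hρ : 0 ≤ ρ) (hκ : ∀ x y : ℝ, |x - y| ≤ ρ → κ ≤ (phi Λ ((x : ℂ) - y)).re) :
    ∃ A ⊆ OF F U1 U2, (∀ a ∈ A, ∀ b ∈ A, a ≠ b → ρ < |a - b|) ∧
      (A.card : ℝ) + (LF F U1 U2).card ≤ NN F U1 U2 ∧
      (NN F U1 U2 : ℝ) + 2 * κ ^ 2 * ((NN F U1 U2 : ℝ) - (A.card + (LF F U1 U2).card)) ≤
        QQ F Λ U1 U2 := by
  have hpos : ∀ x ∈ OF F U1 U2, 1 ≤ wt F x := by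
    intro x hx
    have h2 := (mem_Zf hF hU).mp (mem_OF.mp hx)
    exact Loc.mult_pos' hF (by linarith [h2.2.2.1]) h2.2.2.2.2
  obtain ⟨A, hA, hsep, D, hD, hJ⟩ := greedy2 (Λ := Λ) h0 h1 hρ (wt F) hκ (OF F U1 U2) hpos
  obtain ⟨g1, g2⟩ := core_dist hF hU Λ D hD
  refine ⟨A, hA, hsep, ?_, ?_⟩
  · have h2 : (A.card : ℝ) ≤ ∑ x ∈ OF F U1 U2, (wt F x : ℝ) := by
      refine le_trans (b := ((OF F U1 U2).card : ℝ)) (by exact_mod_cast Finset.card_le_card hA) ?_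
      rw [Finset.card_eq_sum_ones]
      push_cast
      exact Finset.sum_le_sum fun x hx => by exact_mod_cast hpos x hx
    have h3 : ((LF F U1 U2).card : ℝ) ≤ ∑ s ∈ LF F U1 U2, (mult F s : ℝ) := by
      rw [Finset.card_eq_sum_ones]
      push_cast
      refine Finset.sum_le_sum fun s hs => ?_
      have h4 := (mem_Zf hF hU).mp (mem_LF.mp hs).1
      exact_mod_cast Loc.mult_pos' hF (by linarith [h4.2.2.1]) h4.2.2.2.2
    have h5 : (0 : ℝ) ≤ ((LF F U1 U2).card : ℝ) := Nat.cast_nonneg _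
    linarith
  refine le_trans ?_ g1
  have hκ2 : κ ^ 2 ≤ 1 := by nlinarith
  have h3 : 2 * ∑ s ∈ LF F U1 U2, (mult F s : ℝ) +
      2 * κ ^ 2 * (2 * ∑ s ∈ LF F U1 U2, (mult F s : ℝ) - (LF F U1 U2).card) ≤
      ∑ s ∈ LF F U1 U2, (8 * (mult F s : ℝ) - 4) := by
    have e : 2 * ∑ s ∈ LF F U1 U2, (mult F s : ℝ) +
        2 * κ ^ 2 * (2 * ∑ s ∈ LF F U1 U2, (mult F s : ℝ) - (LF F U1 U2).card) =
        ∑ s ∈ LF F U1 U2, (2 * (mult F s : ℝ) + 2 * κ ^ 2 * (2 * (mult F s : ℝ) - 1)) := by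
      rw [Finset.sum_add_distrib, ← Finset.mul_sum, ← Finset.mul_sum, Finset.sum_sub_distrib,
        ← Finset.mul_sum]
      simp
    rw [e]
    refine Finset.sum_le_sum fun s hs => ?_
    have h4 := (mem_Zf hF hU).mp (mem_LF.mp hs).1
    have h5 : (1 : ℝ) ≤ mult F s := by
      exact_mod_cast Loc.mult_pos' hF (by linarith [h4.2.2.1]) h4.2.2.2.2
    have h6 : 2 * κ ^ 2 * (2 * (mult F s : ℝ) - 1) ≤ 2 * 1 * (2 * (mult F s : ℝ) - 1) :=
      mul_le_mul_of_nonneg_right (by linarith) (by linarith)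
    linarith
  rw [← g2]
  have e : ∑ x ∈ OF F U1 U2, (wt F x : ℝ) + 2 * ∑ s ∈ LF F U1 U2, (mult F s : ℝ) +
      2 * κ ^ 2 * (∑ x ∈ OF F U1 U2, (wt F x : ℝ) + 2 * ∑ s ∈ LF F U1 U2, (mult F s : ℝ) -
        ((A.card : ℝ) + (LF F U1 U2).card)) =
      (∑ x ∈ OF F U1 U2, (wt F x : ℝ) +
        2 * κ ^ 2 * (∑ x ∈ OF F U1 U2, (wt F x : ℝ) - A.card)) +
      (2 * ∑ s ∈ LF F U1 U2, (mult F s : ℝ) +
        2 * κ ^ 2 * (2 * ∑ s ∈ LF F U1 U2, (mult F s : ℝ) - (LF F U1 U2).card)) := by ring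
  rw [e]
  exact add_le_add hJ h3

end Pool.Agent.U73.WD
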