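import Pool.Agent.U73.WD.Core

/-!
# Spaced sets of distinct zeros in short intervals
-/

set_option autoImplicit false

open Complex Filter Topology Set MeasureTheory
open scoped BigOperators ComplexConjugate

namespace Pool.Agent.U73.WD

open H370 H344 H295SI H295Iso Pool.Agent.Y796.PA Pool.Agent.U73.WS

variable {F : ℂ → ℂ}

/-- the kernel up to half of the mean spacing -/
theorem kernel_first {r e1 : ℝ} (hK : 0 ≤ KK r) (hr : r ≤ 1 / 2) (he : 0 < e1)
    (he1 : e1 ≤ 1) :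
    ∃ T0 : ℝ, 10 ≤ T0 ∧ ∀ T : ℝ, T0 ≤ T → ∀ Λ : ℝ, 0 ≤ Λ → Λ ≤ Real.log T →
      ∀ x y : ℝ, |x - y| ≤ 2 * Real.pi * r / Real.log T →
        (1 - e1) * KK r ≤ (phi Λ ((x : ℂ) - y)).re := by
  have hpi := Real.pi_pos
  have hpi4 := Real.pi_lt_d4
  refine ⟨Real.exp (max 100 (1 / e1)), ?_, fun T hT Λ hΛ0 hΛ1 => ?_⟩
  · have h1 : Real.exp 100 ≤ Real.exp (max 100 (1 / e1)) := Real.exp_le_exp.mpr (le_max_left _ _)
    have h2 := Real.add_one_le_exp (100 : ℝ)
    linarith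
  have hT0 : 0 < T := (Real.exp_pos _).trans_le hT
  have hL := (Real.le_log_iff_exp_le hT0).mpr hT
  set L := Real.log T with hLdef
  have hL1 : 100 ≤ L := (le_max_left _ _).trans hL
  have hL2 : 1 / e1 ≤ L := (le_max_right _ _).trans hL
  have hL0 : 0 < L := by linarith
  have hLe : 1 ≤ L * e1 := by rw [div_le_iff₀ he] at hL2; exact hL2
  -- scale
  set σ : ℝ := 2 * Real.pi / L with hσ
  have hσ0 : 0 < σ := by positivity
  have hσL : σ * L = 2 * Real.pi := by rw [hσ]; field_simp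
  have hσ1 : σ ≤ 0.063 := by
    rw [hσ, div_le_iff₀ hL0]; nlinarith
  have hσ2 : σ ^ 2 ≤ 0.4 * e1 := by
    have h1 : σ ^ 2 * L = σ * (2 * Real.pi) := by rw [← hσL]; ring
    have h2 : σ * (2 * Real.pi) ≤ 0.063 * 6.2832 := by
      apply mul_le_mul hσ1 (by linarith) (by positivity) (by norm_num)
    have h3 : σ ^ 2 * L ≤ 0.4 * (L * e1) := by
      rw [h1]
      norm_num at h2 ⊢
      linarith
    have h4 : σ ^ 2 * L ≤ (0.4 * e1) * L := by linarith
    exact le_of_mul_le_mul_right h4 hL0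
  have hρ : 2 * Real.pi * r / L = σ * r := by rw [hσ]; ring
  rw [hρ]
  have hΛd : ∀ d : ℝ, |d| ≤ σ * r → |Λ * d| ≤ 2 * Real.pi * r := by
    intro d hd
    rw [abs_mul, abs_of_nonneg hΛ0]
    calc Λ * |d| ≤ L * (σ * r) := mul_le_mul hΛ1 hd (abs_nonneg _) hL0.le
      _ = 2 * Real.pi * r := by rw [← hσL]; ring
  have hRpi : 2 * Real.pi * r ≤ Real.pi := by nlinarith
  have hdsq : ∀ d : ℝ, |d| ≤ σ * r → d ^ 2 ≤ σ ^ 2 / 4 := by
    intro d hd
    rw [← sq_abs]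
    have h1 : |d| ≤ σ * (1 / 2) := hd.trans (mul_le_mul_of_nonneg_left hr hσ0.le)
    calc |d| ^ 2 ≤ (σ * (1 / 2)) ^ 2 := pow_le_pow_left₀ (abs_nonneg _) h1 2
      _ = σ ^ 2 / 4 := by ring
  intro x y hxy
  rw [phi_sub_re]
  have h1 := kap_lower (v := 0) (hΛd (x - y) hxy) hRpi
  simp only [Complex.ofReal_zero, mul_zero, add_zero] at h1
  change KK r ≤ _ at h1
  have h3 : 1 - e1 ≤ Real.exp (-(x - y) ^ 2 / 8) := by
    have h4 := Real.add_one_le_exp (-(x - y) ^ 2 / 8)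
    have h5 := hdsq (x - y) hxy
    linarith
  calc (1 - e1) * KK r ≤ Real.exp (-(x - y) ^ 2 / 8) * KK r := mul_le_mul_of_nonneg_right h3 hK
    _ ≤ Real.exp (-(x - y) ^ 2 / 8) * (kap ((Λ * (x - y) : ℝ) : ℂ)).re :=
        mul_le_mul_of_nonneg_left h1 (Real.exp_pos _).le
    _ = _ := by ring

/-- the numerical core -/
lemma num_core2 {N S Q M q e η c c' K2 ε A NT : ℝ} (hM : 0 < M)
    (hK20 : 0 < K2) (hK1 : K2 ≤ 2) (hq : q = (1 - e) * K2)
    (he0 : 0 < e) (he1 : e ≤ 1 / 10) (hη0 : 0 < η) (hη1 : η ≤ 1 / 100)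
    (hcore : N + q * (N - S) ≤ Q)
    (hN1 : (1 - 7 * η) * M ≤ N) (hN2 : N ≤ (1 + 7 * η) * M)
    (hQ : Q ≤ M * (c' + η)) (hc : c' ≤ c + ε * K2 / 8) (hec : e * |c - 1| ≤ ε * K2 / 8)
    (hA : A = 1 - (c - 1) / K2 - ε) (hA0 : 0 < A)
    (heta : (22 + 16 * A) * η ≤ ε * K2 / 4) (heε : e * (ε * K2) ≤ ε * K2 / 8)
    (hNT : NT ≤ N + η * M) (hε : 0 < ε) :
    A * NT ≤ S := by
  have hq0 : 0 < q := by rw [hq]; apply mul_pos <;> linarith
  have hq1 : q ≤ 2 := by rw [hq]; nlinarith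
  have h2 : (1 + q) * ((1 - 7 * η) * M) ≤ (1 + q) * N :=
    mul_le_mul_of_nonneg_left hN1 (by linarith)
  have h3 : ((1 + q) * (1 - 7 * η) - (c' + η)) * M ≤ q * S := by
    have : ((1 + q) * (1 - 7 * η) - (c' + η)) * M =
      (1 + q) * ((1 - 7 * η) * M) - M * (c' + η) := by ring
    linarith
  have h4 : NT ≤ (1 + 8 * η) * M := by nlinarith
  have h5 : A * NT ≤ A * ((1 + 8 * η) * M) := mul_le_mul_of_nonneg_left h4 hA0.le
  have hqA : q * A = (1 - e) * (K2 - (c - 1) - ε * K2) := by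
    rw [hq, hA]; field_simp
  have h6 : q * A * (1 + 8 * η) ≤ (1 + q) * (1 - 7 * η) - (c' + η) := by
    have e1 : |e * (c - 1)| ≤ ε * K2 / 8 := by
      rw [abs_mul, abs_of_pos he0]; exact hec
    have e2 := (abs_le.mp e1).2
    have e2' := (abs_le.mp e1).1
    have e3 : q * A * (8 * η) ≤ 16 * A * η := by
      have : q * (A * (8 * η)) ≤ 2 * (A * (8 * η)) :=
        mul_le_mul_of_nonneg_right hq1 (by positivity)
      linarith
    have e5 : (1 + q) * (7 * η) ≤ 21 * η := by nlinarith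
    have e6 : q * A = q - (c - 1) + e * (c - 1) - ε * K2 + e * (ε * K2) := by
      rw [hqA, hq]; ring
    have e7 : 0 < ε * K2 := by positivity
    nlinarith
  have h7 : q * (A * ((1 + 8 * η) * M)) ≤ q * S := by
    have : q * (A * ((1 + 8 * η) * M)) = q * A * (1 + 8 * η) * M := by ring
    rw [this]
    exact (mul_le_mul_of_nonneg_right h6 hM.le).trans h3
  have h8 := le_of_mul_le_mul_left h7 hq0
  linarith

/-- spaced distinct zeros in the good intervals -/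
theorem wd_det (hF : GoodL F) {h r ε : ℝ} (hh : 0 < h)
    (hr0 : 0 ≤ r) (hr : h * r ≤ 1 / 2) (hε : 0 < ε) :
    ∃ x0 : ℝ, 0 < x0 ∧ x0 < h ∧ ∀ x : ℝ, x0 ≤ x → x < h →
    ∃ e0 : ℝ, 0 < e0 ∧ ∀ e : ℝ, 0 < e → e ≤ e0 → ∃ T0 : ℝ, 10 ≤ T0 ∧ ∀ T : ℝ, T0 ≤ T →
      ∀ t : ℝ, T ≤ t → ∀ H : ℝ, 0 < H → GoodInt F T H x e t →
      ∃ A ⊆ OF F t (t + H), (∀ a ∈ A, ∀ b ∈ A, a ≠ b → 2 * Real.pi * r / Real.log T < |a - b|) ∧
        (1 - (c0 h - 1) / (2 * KK (h * r) ^ 2) - ε) * (NN F t (t + H) : ℝ) ≤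
          (A.card : ℝ) + (LF F t (t + H)).card := by
  classical
  have hpi := Real.pi_pos
  have hpi2 : Real.pi < 3.15 := Real.pi_lt_d2
  have hhr0 : 0 ≤ h * r := by positivity
  have hKa : (0.655 : ℝ) ≤ KK (h * r) := KK_half.trans (KK_anti hhr0 hr le_rfl)
  have hKb : KK (h * r) ≤ 1 := KK_le_one _
  have hKp : 0 < KK (h * r) := by norm_num at hKa ⊢; linarith
  set K2 : ℝ := 2 * KK (h * r) ^ 2 with hK2
  have hK20 : 0 < K2 := by positivity
  have hK1 : K2 ≤ 2 := by rw [hK2]; nlinarith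
  set A : ℝ := 1 - (c0 h - 1) / K2 - ε with hA
  by_cases hA0 : A ≤ 0
  · refine ⟨h / 2, by positivity, by linarith, fun x _ _ => ⟨1, one_pos, fun e _ _ =>
      ⟨10, le_rfl, fun T _ t _ H _ _ => ⟨∅, Finset.empty_subset _, by simp, ?_⟩⟩⟩⟩
    have h1 : A * (NN F t (t + H) : ℝ) ≤ 0 := mul_nonpos_of_nonpos_of_nonneg hA0 (by positivity)
    exact h1.trans (by positivity)
  push Not at hA0
  -- parameters
  obtain ⟨x0, hx00, hx0h, hcc⟩ : ∃ x0 : ℝ, 0 < x0 ∧ x0 < h ∧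
      ∀ x : ℝ, x0 ≤ x → x < h → c0 x ≤ c0 h + ε * K2 / 8 := by
    have hcont := c0_cont hh
    have h1 : ∀ᶠ x in 𝓝 h, c0 x < c0 h + ε * K2 / 8 :=
      hcont.eventually (gt_mem_nhds (by have : 0 < ε * K2 := by positivity
                                        linarith))
    rw [Metric.eventually_nhds_iff] at h1
    obtain ⟨d, hd0, hd⟩ := h1
    refine ⟨max (h - d / 2) (h / 2), lt_of_lt_of_le (by positivity) (le_max_right _ _),
      max_lt (by linarith) (by linarith), fun x hx hxh => (hd ?_).le⟩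
    have h2 : h - d / 2 ≤ x := (le_max_left _ _).trans hx
    rw [Real.dist_eq, abs_sub_comm, abs_of_pos (by linarith)]
    linarith
  set e : ℝ := min (1 / 10) (ε * K2 / (8 * (|c0 h - 1| + 1))) with he
  have he0 : 0 < e := by rw [he]; positivity
  have he1 : e ≤ 1 / 10 := min_le_left _ _
  have hec : e * |c0 h - 1| ≤ ε * K2 / 8 := by
    have h1 : e ≤ ε * K2 / (8 * (|c0 h - 1| + 1)) := min_le_right _ _
    rw [le_div_iff₀ (by positivity)] at h1
    have h2 := abs_nonneg (c0 h - 1)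
    nlinarith
  have heε : e * (ε * K2) ≤ ε * K2 / 8 := by
    have : 0 < ε * K2 := by positivity
    nlinarith
  set η : ℝ := min (1 / 100) (ε * K2 / (4 * (22 + 16 * A))) with hη
  have hη0 : 0 < η := by rw [hη]; positivity
  have hη1 : η ≤ 1 / 100 := min_le_left _ _
  have heta : (22 + 16 * A) * η ≤ ε * K2 / 4 := by
    have h1 : η ≤ ε * K2 / (4 * (22 + 16 * A)) := min_le_right _ _
    rw [le_div_iff₀ (by positivity)] at h1
    linarith
  refine ⟨x0, hx00, hx0h, fun x hx1 hx2 => ⟨η, hη0, fun e' he'0 he'η => ?_⟩⟩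
  obtain ⟨T3, hT3, hKB⟩ := kernel_first (r := h * r) (e1 := e / 2) hKp.le hr (by positivity) (by linarith)
  -- largeness of `T`
  have htop : Tendsto (fun T : ℝ => T ^ h) atTop atTop := tendsto_rpow_atTop hh
  obtain ⟨T4, hT4⟩ := (htop.eventually_ge_atTop T3).exists_forall_of_atTop
  refine ⟨max 10 T4, le_max_left _ _, fun T hT t ht H hH hgood => ?_⟩
  have hT10 : 10 ≤ T := (le_max_left _ _).trans hT
  have hTh3 := hT4 T ((le_max_right _ _).trans hT)
  have hL : 0 < Real.log T := Real.log_pos (by linarith)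
  obtain ⟨hNN, hQQ⟩ := hgood
  set M : ℝ := H * Real.log T / (2 * Real.pi) with hM
  have hM0 : 0 < M := by positivity
  obtain ⟨hNNl, hNNu⟩ := abs_le.mp hNN
  have hlogTh : Real.log (T ^ h) = h * Real.log T := Real.log_rpow (by linarith) h
  have hx0 : 0 < x := hx00.trans_le hx1
  have hΛ0 : 0 ≤ x * Real.log T := mul_nonneg hx0.le hL.le
  have hΛ1 : x * Real.log T ≤ Real.log (T ^ h) := by
    rw [hlogTh]
    exact mul_le_mul_of_nonneg_right hx2.le hL.le
  have hk1 := hKB (T ^ h) hTh3 (x * Real.log T) hΛ0 hΛ1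
  have hρe : 2 * Real.pi * (h * r) / Real.log (T ^ h) = 2 * Real.pi * r / Real.log T := by
    rw [hlogTh]; field_simp
  rw [hρe] at hk1
  have hU : 1 ≤ t := by linarith
  have hρ0 : 0 ≤ 2 * Real.pi * r / Real.log T := by positivity
  have hκ0 : 1 / 2 ≤ (1 - e / 2) * KK (h * r) := by
    norm_num at hKa
    nlinarith
  have hκ1 : (1 - e / 2) * KK (h * r) ≤ 1 := by nlinarith
  obtain ⟨B, hB, hsep, hBN, core⟩ := wd_core (U2 := t + H) hF hU hκ0 hκ1 hρ0 hk1
  refine ⟨B, hB, hsep, ?_⟩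
  have core' : (NN F t (t + H) : ℝ) +
      (1 - e) * K2 * ((NN F t (t + H) : ℝ) - ((B.card : ℝ) + (LF F t (t + H)).card)) ≤
        QQ F (x * Real.log T) t (t + H) := by
    refine le_trans ?_ core
    have h1 : (1 - e) * K2 ≤ 2 * ((1 - e / 2) * KK (h * r)) ^ 2 := by
      rw [hK2]
      nlinarith [mul_nonneg (sq_nonneg e) (sq_nonneg (KK (h * r)))]
    have := mul_le_mul_of_nonneg_right h1 (sub_nonneg.mpr hBN)
    linarith
  have he'M : e' * M ≤ η * M := mul_le_mul_of_nonneg_right he'η hM0.le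
  have hηM : 0 < η * M := by positivity
  have hQ' : QQ F (x * Real.log T) t (t + H) ≤ M * (c0 x + η) :=
    hQQ.trans (mul_le_mul_of_nonneg_left (by linarith) hM0.le)
  exact num_core2 (N := (NN F t (t + H) : ℝ)) (Q := QQ F (x * Real.log T) t (t + H))
    (NT := (NN F t (t + H) : ℝ)) (M := M) (q := (1 - e) * K2) (c := c0 h) (c' := c0 x) (K2 := K2)
    hM0 hK20 hK1 rfl he0 he1 hη0 hη1 core' (by linarith) (by linarith) hQ'
    (hcc x hx1 hx2) hec hA hA0 heta heε (by linarith) hε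

/-- spaced distinct zeros in all short intervals -/
theorem wd_short (hF : GoodL F) {h r ε : ℝ} (hh : 0 < h) (hh1 : h ≤ 1)
    (hr0 : 0 ≤ r) (hr : h * r ≤ 1 / 2) (hε : 0 < ε) :
    ∃ T0 : ℝ, 10 ≤ T0 ∧ ∀ T : ℝ, T0 ≤ T → ∀ H : ℝ, T ^ h ≤ H → H ≤ T →
      ∃ A ⊆ OF F T (T + H), (∀ a ∈ A, ∀ b ∈ A, a ≠ b → 2 * Real.pi * r / Real.log T < |a - b|) ∧
        (1 - (c0 h - 1) / (2 * KK (h * r) ^ 2) - ε) * (NN F T (T + H) : ℝ) ≤
          (A.card : ℝ) + (LF F T (T + H)).card := by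
  classical
  have hpi := Real.pi_pos
  have hpi2 : Real.pi < 3.15 := Real.pi_lt_d2
  have hhr0 : 0 ≤ h * r := by positivity
  have hKa : (0.655 : ℝ) ≤ KK (h * r) := KK_half.trans (KK_anti hhr0 hr le_rfl)
  have hKb : KK (h * r) ≤ 1 := KK_le_one _
  have hKp : 0 < KK (h * r) := by norm_num at hKa ⊢; linarith
  set K2 : ℝ := 2 * KK (h * r) ^ 2 with hK2
  have hK20 : 0 < K2 := by positivity
  have hK1 : K2 ≤ 2 := by rw [hK2]; nlinarith
  set A : ℝ := 1 - (c0 h - 1) / K2 - ε with hA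
  by_cases hA0 : A ≤ 0
  · refine ⟨10, le_rfl, fun T _ H _ _ => ⟨∅, Finset.empty_subset _, by simp, ?_⟩⟩
    have h1 : A * (NN F T (T + H) : ℝ) ≤ 0 := mul_nonpos_of_nonpos_of_nonneg hA0 (by positivity)
    exact h1.trans (by positivity)
  push Not at hA0
  -- parameters
  obtain ⟨ε', hε'0, hε'h, hcc⟩ : ∃ ε' : ℝ, 0 < ε' ∧ ε' < h ∧ c0 (h - ε') ≤ c0 h + ε * K2 / 8 := by
    have hcont := c0_cont hh
    have h1 : ∀ᶠ x in 𝓝 h, c0 x < c0 h + ε * K2 / 8 :=
      hcont.eventually (gt_mem_nhds (by have : 0 < ε * K2 := by positivity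
                                        linarith))
    rw [Metric.eventually_nhds_iff] at h1
    obtain ⟨d, hd0, hd⟩ := h1
    refine ⟨min (d / 2) (h / 2), by positivity, lt_of_le_of_lt (min_le_right _ _) (by linarith), ?_⟩
    refine (hd ?_).le
    rw [Real.dist_eq, abs_sub_comm, show h - (h - min (d / 2) (h / 2)) = min (d / 2) (h / 2) by ring,
      abs_of_pos (by positivity)]
    exact lt_of_le_of_lt (min_le_left _ _) (by linarith)
  set e : ℝ := min (1 / 10) (ε * K2 / (8 * (|c0 h - 1| + 1))) with he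
  have he0 : 0 < e := by rw [he]; positivity
  have he1 : e ≤ 1 / 10 := min_le_left _ _
  have hec : e * |c0 h - 1| ≤ ε * K2 / 8 := by
    have h1 : e ≤ ε * K2 / (8 * (|c0 h - 1| + 1)) := min_le_right _ _
    rw [le_div_iff₀ (by positivity)] at h1
    have h2 := abs_nonneg (c0 h - 1)
    nlinarith
  have heε : e * (ε * K2) ≤ ε * K2 / 8 := by
    have : 0 < ε * K2 := by positivity
    nlinarith
  set η : ℝ := min (1 / 100) (ε * K2 / (4 * (22 + 16 * A))) with hη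
  have hη0 : 0 < η := by rw [hη]; positivity
  have hη1 : η ≤ 1 / 100 := min_le_left _ _
  have heta : (22 + 16 * A) * η ≤ ε * K2 / 4 := by
    have h1 : η ≤ ε * K2 / (4 * (22 + 16 * A)) := min_le_right _ _
    rw [le_div_iff₀ (by positivity)] at h1
    linarith
  obtain ⟨T1, hT1, hPC⟩ := pairShort hF h ε' η hε'0 hε'h hh1 hη0
  obtain ⟨C, hC, hcnt⟩ := H965SI.countShort F hF
  obtain ⟨T3, hT3, hKB⟩ := kernel_first (r := h * r) (e1 := e / 2) hKp.le hr (by positivity) (by linarith)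
  -- largeness of `T`
  have htop : Tendsto (fun T : ℝ => T ^ h) atTop atTop := tendsto_rpow_atTop hh
  have hlogtop := Real.tendsto_log_atTop
  obtain ⟨T4, hT4⟩ := (htop.eventually_ge_atTop
    (max (max T3 5) (2 * Real.pi * C / η))).exists_forall_of_atTop
  obtain ⟨T5, hT5⟩ := (hlogtop.eventually_ge_atTop (10 : ℝ)).exists_forall_of_atTop
  refine ⟨max (max T1 10) (max T4 T5), (le_max_right _ _).trans (le_max_left _ _),
    fun T hT H hH hHT => ?_⟩
  have hTT1 : T1 ≤ T := ((le_max_left _ _).trans (le_max_left _ _)).trans hT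
  have hT10 : 10 ≤ T := ((le_max_right _ _).trans (le_max_left _ _)).trans hT
  have hTT4 := hT4 T (((le_max_left _ _).trans (le_max_right _ _)).trans hT)
  have hL10 := hT5 T (((le_max_right _ _).trans (le_max_right _ _)).trans hT)
  have hTh3 : T3 ≤ T ^ h := ((le_max_left _ _).trans (le_max_left _ _)).trans hTT4
  have hTh5 : 5 ≤ T ^ h := ((le_max_right _ _).trans (le_max_left _ _)).trans hTT4
  have hThC : 2 * Real.pi * C / η ≤ T ^ h := (le_max_right _ _).trans hTT4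
  have hL : 0 < Real.log T := by linarith
  have hH5 : 5 ≤ H := hTh5.trans hH
  obtain ⟨U1, U2, hU1, hU1', hU2, hU2', hNN, hQQ⟩ := hPC T hTT1 H hH hHT
  set M : ℝ := H * Real.log T / (2 * Real.pi) with hM
  have hM0 : 0 < M := by positivity
  have hHL : H * Real.log T = 2 * Real.pi * M := by rw [hM]; field_simp
  rw [hHL] at hNN
  have hηM : η * (2 * Real.pi * M) ≤ 7 * η * M := by
    have : 2 * Real.pi ≤ 7 := by linarith
    calc η * (2 * Real.pi * M) = (η * M) * (2 * Real.pi) := by ring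
      _ ≤ (η * M) * 7 := by
        apply mul_le_mul_of_nonneg_left this (by positivity)
      _ = 7 * η * M := by ring
  obtain ⟨hNNl, hNNu⟩ := abs_le.mp hNN
  have hcnt2 := (hcnt T hT10 H (by linarith) hHT U1 U2 hU1 hU1' hU2 hU2').2
  have hlogTh : Real.log (T ^ h) = h * Real.log T := Real.log_rpow (by linarith) h
  have hΛ0 : 0 ≤ (h - ε') * Real.log T := mul_nonneg (by linarith) hL.le
  have hΛ1 : (h - ε') * Real.log T ≤ Real.log (T ^ h) := by
    rw [hlogTh]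
    exact mul_le_mul_of_nonneg_right (by linarith) hL.le
  have hk1 := hKB (T ^ h) hTh3 ((h - ε') * Real.log T) hΛ0 hΛ1
  have hρe : 2 * Real.pi * (h * r) / Real.log (T ^ h) = 2 * Real.pi * r / Real.log T := by
    rw [hlogTh]; field_simp
  rw [hρe] at hk1
  have hU : 1 ≤ U1 := by linarith
  have hρ0 : 0 ≤ 2 * Real.pi * r / Real.log T := by positivity
  have hκ0 : 1 / 2 ≤ (1 - e / 2) * KK (h * r) := by
    norm_num at hKa
    nlinarith
  have hκ1 : (1 - e / 2) * KK (h * r) ≤ 1 := by nlinarith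
  obtain ⟨B, hB, hsep, hBN, core⟩ := wd_core (U2 := U2) hF hU hκ0 hκ1 hρ0 hk1
  refine ⟨B, hB.trans ?_, hsep, ?_⟩
  · intro y hy
    rw [mem_OF, mem_Zf hF hU] at hy
    rw [mem_OF, mem_Zf hF (by linarith : (1 : ℝ) ≤ T)]
    exact ⟨hy.1, hy.2.1, by linarith [hy.2.2.1], by linarith [hy.2.2.2.1], hy.2.2.2.2⟩
  have core' : (NN F U1 U2 : ℝ) +
      (1 - e) * K2 * ((NN F U1 U2 : ℝ) - ((B.card : ℝ) + (LF F U1 U2).card)) ≤
        QQ F ((h - ε') * Real.log T) U1 U2 := by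
    refine le_trans ?_ core
    have h1 : (1 - e) * K2 ≤ 2 * ((1 - e / 2) * KK (h * r)) ^ 2 := by
      rw [hK2]
      nlinarith [mul_nonneg (sq_nonneg e) (sq_nonneg (KK (h * r)))]
    have := mul_le_mul_of_nonneg_right h1 (sub_nonneg.mpr hBN)
    linarith
  have hLF : ((LF F U1 U2).card : ℝ) ≤ (LF F T (T + H)).card := by
    have : LF F U1 U2 ⊆ LF F T (T + H) := by
      intro s hs
      rw [mem_LF, mem_Zf hF hU] at hs
      rw [mem_LF, mem_Zf hF (by linarith : (1 : ℝ) ≤ T)]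
      exact ⟨⟨hs.1.1, hs.1.2.1, by linarith [hs.1.2.2.1], by linarith [hs.1.2.2.2.1],
        hs.1.2.2.2.2⟩, hs.2⟩
    exact_mod_cast Finset.card_le_card this
  have hCL : C * Real.log T ≤ η * M := by
    rw [div_le_iff₀ hη0] at hThC
    have h1 : 2 * Real.pi * C ≤ H * η := hThC.trans (mul_le_mul_of_nonneg_right hH hη0.le)
    have : η * M = (H * η) * (Real.log T / (2 * Real.pi)) := by rw [hM]; ring
    rw [this]
    calc C * Real.log T = (2 * Real.pi * C) * (Real.log T / (2 * Real.pi)) := by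
          field_simp
      _ ≤ (H * η) * (Real.log T / (2 * Real.pi)) :=
        mul_le_mul_of_nonneg_right h1 (by positivity)
  have hCl1 : 0 ≤ C * Real.log T := by positivity
  have hfin := num_core2 (N := (NN F U1 U2 : ℝ)) (Q := QQ F ((h - ε') * Real.log T) U1 U2)
    (NT := (NN F T (T + H) : ℝ)) (M := M) (q := (1 - e) * K2) (c := c0 h) (c' := c0 (h - ε'))
    (K2 := K2) hM0 hK20 hK1 rfl he0 he1 hη0 hη1 core' (by linarith) (by linarith) hQQ hcc hec hA
    hA0 heta heε (by linarith) hε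
  linarith

/-- spaced distinct zeros in almost all very short intervals -/
theorem wd_aa (hF : GoodL F) (hB : ∀ τ : ℝ, 0 < τ → τ ≤ 1 → Pool.Agent.TH822.DZ.BZr F τ)
    {η h r ε : ℝ} (hη0 : 0 < η) (hη1 : η < 1) (hh : 0 < h) (hh1 : 2 * h ≤ 1 + η)
    (hr0 : 0 ≤ r) (hr : h * r ≤ 1 / 2) (hε : 0 < ε) :
    AA η (fun T H t => ∃ A ⊆ OF F t (t + H),
      (∀ a ∈ A, ∀ b ∈ A, a ≠ b → 2 * Real.pi * r / Real.log T < |a - b|) ∧
        (1 - (c0 h - 1) / (2 * KK (h * r) ^ 2) - ε) * (NN F t (t + H) : ℝ) ≤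
          (A.card : ℝ) + (LF F t (t + H)).card) := by
  obtain ⟨x0, hx0, hxh, h1⟩ := wd_det hF hh hr0 hr hε
  obtain ⟨e0, he0, h2⟩ := h1 x0 le_rfl hxh
  obtain ⟨T0, -, h3⟩ := h2 e0 he0 le_rfl
  exact aa_of_det hF hB hη0 hη1 hh1 hx0 hxh he0 fun T hT t ht H hH hg =>
    h3 T hT t ht H (by linarith) hg


end Pool.Agent.U73.WD
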